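import Mathlib

set_option autoImplicit false

/-! The exclusive sum number is bounded by a function of the sum index. -/

namespace Pool.Agent.Results.MP_091b59_co.ExclusiveBounded

open SimpleGraph

/-- The set of edge sums of the labelling `f`. -/
def edgeSums {V : Type} (G : SimpleGraph V) (f : V → ℤ) : Set ℤ :=
  {s | ∃ u v, G.Adj u v ∧ f u + f v = s}

/-- The sum index: the least number of distinct edge sums of an injective labelling by
integers. -/
noncomputable def sumIndex {V : Type} (G : SimpleGraph V) : ℕ :=
  sInf {k | ∃ f : V → ℤ, Function.Injective f ∧ (edgeSums G f).ncard = k}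

/-- `g` is an exclusive sum labelling of `G` with `r` isolated vertices added: `g` is an injective
labelling of `G ∪ rK₁` by positive integers, two distinct vertices are adjacent exactly if the sum
of their labels is a label, and every edge sum of `G` is the label of an added vertex. -/
def IsExclusive {V : Type} (G : SimpleGraph V) (r : ℕ) (g : V ⊕ Fin r → ℤ) : Prop :=
  Function.Injective g ∧ (∀ x, 0 < g x) ∧
    (∀ x y, x ≠ y → ((G ⊕g (⊥ : SimpleGraph (Fin r))).Adj x y ↔ ∃ w, g x + g y = g w)) ∧
    ∀ u v, G.Adj u v → ∃ i : Fin r, g (Sum.inl u) + g (Sum.inl v) = g (Sum.inr i)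

/-- The exclusive sum number. -/
noncomputable def exclusiveSumNumber {V : Type} (G : SimpleGraph V) : ℕ :=
  sInf {r | ∃ g : V ⊕ Fin r → ℤ, IsExclusive G r g}

variable {V : Type} (G : SimpleGraph V)

open Classical in
/-- Whether the vertex `v` has a neighbour with which it has the sum `s`. -/
noncomputable def chi (f : V → ℤ) (s : ℤ) (v : V) : ℤ :=
  if ∃ u, G.Adj v u ∧ f v + f u = s then 1 else 0

theorem chi_cases (f : V → ℤ) (s : ℤ) (v : V) : chi G f s v = 0 ∨ chi G f s v = 1 := by
  unfold chi
  split_ifs
  · exact Or.inr rfl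
  · exact Or.inl rfl

/-- The refined labelling. -/
noncomputable def enc (f : V → ℤ) : List ℤ → V → ℤ
  | [], v => f v
  | s :: l, v => 3 * enc f l v + chi G f s v

theorem enc_inj {f : V → ℤ} (hf : Function.Injective f) (l : List ℤ) :
    Function.Injective (enc G f l) := by
  induction l with
  | nil => exact hf
  | cons s l ih =>
    intro u v h
    simp only [enc] at h
    apply ih
    rcases chi_cases G f s u with h1 | h1 <;> rcases chi_cases G f s v with h2 | h2 <;>
      rw [h1, h2] at h <;> omega

theorem enc_sum {f : V → ℤ} (l : List ℤ) {u v x y : V}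
    (h : enc G f l u + enc G f l v = enc G f l x + enc G f l y) :
    f u + f v = f x + f y ∧
      ∀ s ∈ l, chi G f s u + chi G f s v = chi G f s x + chi G f s y := by
  induction l with
  | nil => exact ⟨h, by simp⟩
  | cons s l ih =>
    simp only [enc] at h
    have h3 : enc G f l u + enc G f l v = enc G f l x + enc G f l y ∧
        chi G f s u + chi G f s v = chi G f s x + chi G f s y := by
      rcases chi_cases G f s u with h1 | h1 <;> rcases chi_cases G f s v with h2 | h2 <;>
      rcases chi_cases G f s x with h3 | h3 <;> rcases chi_cases G f s y with h4 | h4 <;>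
      rw [h1, h2, h3, h4] at h ⊢ <;> omega
    obtain ⟨h4, h5⟩ := ih h3.1
    refine ⟨h4, ?_⟩
    intro t ht
    rcases List.mem_cons.1 ht with rfl | ht
    · exact h3.2
    · exact h5 t ht

theorem enc_card [Finite V] {f : V → ℤ} (l : List ℤ) :
    (edgeSums G (enc G f l)).ncard ≤ (edgeSums G f).ncard * 3 ^ l.length := by
  have hfin : ∀ g : V → ℤ, (edgeSums G g).Finite := by
    intro g
    have : edgeSums G g ⊆ Set.range (fun p : V × V => g p.1 + g p.2) := by
      rintro s ⟨u, v, -, h⟩
      exact ⟨(u, v), h⟩
    exact (Set.finite_range _).subset this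
  induction l with
  | nil => simp [enc]
  | cons s l ih =>
    have hsub : edgeSums G (enc G f (s :: l)) ⊆
        (fun p : ℤ × ℤ => 3 * p.1 + p.2) '' (edgeSums G (enc G f l) ×ˢ {0, 1, 2}) := by
      rintro t ⟨u, v, huv, rfl⟩
      refine ⟨(enc G f l u + enc G f l v, chi G f s u + chi G f s v), ⟨⟨u, v, huv, rfl⟩, ?_⟩, ?_⟩
      · rcases chi_cases G f s u with h1 | h1 <;> rcases chi_cases G f s v with h2 | h2 <;>
          simp [h1, h2]
      · simp only [enc]; ring
    have hfin2 : (edgeSums G (enc G f l) ×ˢ ({0, 1, 2} : Set ℤ)).Finite :=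
      (hfin _).prod (Set.toFinite _)
    calc (edgeSums G (enc G f (s :: l))).ncard
        ≤ ((fun p : ℤ × ℤ => 3 * p.1 + p.2) '' (edgeSums G (enc G f l) ×ˢ {0, 1, 2})).ncard :=
          Set.ncard_le_ncard hsub (hfin2.image _)
      _ ≤ (edgeSums G (enc G f l) ×ˢ ({0, 1, 2} : Set ℤ)).ncard := Set.ncard_image_le hfin2
      _ = (edgeSums G (enc G f l)).ncard * ({0, 1, 2} : Set ℤ).ncard := Set.ncard_prod
      _ ≤ (edgeSums G (enc G f l)).ncard * 3 := by
          apply Nat.mul_le_mul_left
          have : ({0, 1, 2} : Set ℤ) = (({0, 1, 2} : Finset ℤ) : Set ℤ) := by simp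
          rw [this, Set.ncard_coe_finset]
          decide
      _ ≤ ((edgeSums G f).ncard * 3 ^ l.length) * 3 := Nat.mul_le_mul_right 3 ih
      _ = (edgeSums G f).ncard * 3 ^ (s :: l).length := by
          rw [List.length_cons, pow_succ]; ring

/-- A labelling in which the edge sums differ from all other sums gives an exclusive
labelling. -/
theorem exclusive_of [Finite V] {g : V → ℤ} (hg : Function.Injective g)
    (hex : ∀ u v, u ≠ v → g u + g v ∈ edgeSums G g → G.Adj u v) :
    ∃ g' : V ⊕ Fin (edgeSums G g).ncard → ℤ, IsExclusive G (edgeSums G g).ncard g' := by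
  classical
  have hfin : (edgeSums G g).Finite := by
    have : edgeSums G g ⊆ Set.range (fun p : V × V => g p.1 + g p.2) := by
      rintro s ⟨u, v, -, h⟩
      exact ⟨(u, v), h⟩
    exact (Set.finite_range _).subset this
  obtain ⟨B, hB⟩ : ∃ B : ℤ, ∀ v, |g v| ≤ B := by
    obtain ⟨B, hB⟩ := (Set.finite_range (fun v => |g v|)).bddAbove
    exact ⟨B, fun v => hB ⟨v, rfl⟩⟩
  have hB0 : ∀ v, -B ≤ g v ∧ g v ≤ B := fun v => abs_le.1 (hB v)
  haveI : Finite (edgeSums G g) := hfin
  have e : Fin (edgeSums G g).ncard ≃ edgeSums G g := by
    have : Nat.card (edgeSums G g) = (edgeSums G g).ncard := Nat.card_coe_set_eq _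
    rw [← this]
    exact (Finite.equivFin _).symm
  set M : ℤ := 5 * |B| + 1 with hM
  have hMB : 5 * B + 1 ≤ M := by
    have := le_abs_self B
    omega
  have hM0 : 1 ≤ M := by
    have := abs_nonneg B
    omega
  have hes : ∀ i, -(2 * B) ≤ (e i).1 ∧ (e i).1 ≤ 2 * B := by
    intro i
    obtain ⟨u, v, -, h⟩ := (e i).2
    have h1 := hB0 u
    have h2 := hB0 v
    omega
  have hes2 : ∀ _ : Fin (edgeSums G g).ncard, 0 ≤ B := by
    intro i
    obtain ⟨u, v, -, h⟩ := (e i).2
    have h1 := hB0 u
    omega
  refine ⟨Sum.elim (fun v => g v + M) (fun i => (e i).1 + 2 * M), ?_, ?_, ?_, ?_⟩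
  · rintro (u | i) (v | j) h
    · simp only [Sum.elim_inl] at h
      rw [hg (add_right_cancel h)]
    · simp only [Sum.elim_inl, Sum.elim_inr] at h
      have h1 := hB0 u
      have h2 := hes j
      omega
    · simp only [Sum.elim_inl, Sum.elim_inr] at h
      have h1 := hB0 v
      have h2 := hes i
      omega
    · simp only [Sum.elim_inr] at h
      rw [e.injective (Subtype.ext (add_right_cancel h))]
  · rintro (u | i)
    · simp only [Sum.elim_inl]
      have h1 := hB0 u
      omega
    · simp only [Sum.elim_inr]
      have h2 := hes i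
      have := hes2 i
      omega
  · rintro (u | i) (v | j) hne
    · simp only [Sum.elim_inl]
      have huv : u ≠ v := fun h => hne (by rw [h])
      constructor
      · intro h
        have hadj : G.Adj u v := by simpa using h
        refine ⟨Sum.inr (e.symm ⟨g u + g v, u, v, hadj, rfl⟩), ?_⟩
        simp only [Sum.elim_inr, Equiv.apply_symm_apply]
        ring
      · rintro ⟨w | i, hw⟩
        · exfalso
          simp only [Sum.elim_inl] at hw
          have h1 := hB0 u
          have h2 := hB0 v
          have h3 := hB0 w
          omega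
        · simp only [Sum.elim_inr] at hw
          have : G.Adj u v := by
            apply hex u v huv
            have h5 : g u + g v = (e i).1 := by omega
            rw [h5]
            exact (e i).2
          simpa using this
    · simp only [Sum.elim_inl, Sum.elim_inr]
      constructor
      · intro h
        exact absurd h (by simp)
      · rintro ⟨w | k, hw⟩
        · simp only [Sum.elim_inl] at hw
          have h1 := hB0 u
          have h2 := hes j
          have h3 := hB0 w
          omega
        · simp only [Sum.elim_inr] at hw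
          have h1 := hB0 u
          have h2 := hes j
          have h3 := hes k
          omega
    · simp only [Sum.elim_inl, Sum.elim_inr]
      constructor
      · intro h
        exact absurd h (by simp)
      · rintro ⟨w | k, hw⟩
        · simp only [Sum.elim_inl] at hw
          have h1 := hB0 v
          have h2 := hes i
          have h3 := hB0 w
          omega
        · simp only [Sum.elim_inr] at hw
          have h1 := hB0 v
          have h2 := hes i
          have h3 := hes k
          omega
    · simp only [Sum.elim_inr]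
      constructor
      · intro h
        exact absurd h (by simp)
      · rintro ⟨w | k, hw⟩
        · simp only [Sum.elim_inl] at hw
          have h1 := hes i
          have h2 := hes j
          have h3 := hB0 w
          have := hes2 i
          omega
        · simp only [Sum.elim_inr] at hw
          have h1 := hes i
          have h2 := hes j
          have h3 := hes k
          have := hes2 i
          omega
  · intro u v huv
    refine ⟨e.symm ⟨g u + g v, u, v, huv, rfl⟩, ?_⟩
    simp only [Sum.elim_inl, Sum.elim_inr, Equiv.apply_symm_apply]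
    ring

/-- For every finite graph `ε(G) ≤ σ(G) · 3 ^ σ(G)`. -/
theorem result : ∀ (V : Type) [Finite V] (G : SimpleGraph V),
    exclusiveSumNumber G ≤ sumIndex G * 3 ^ sumIndex G := by
  intro V _ G
  classical
  have hne : {k | ∃ f : V → ℤ, Function.Injective f ∧ (edgeSums G f).ncard = k}.Nonempty := by
    obtain ⟨n, ⟨e⟩⟩ := Finite.exists_equiv_fin V
    refine ⟨_, fun v => ((e v).1 : ℤ), ?_, rfl⟩
    intro u v h
    apply e.injective
    apply Fin.ext
    simp only at h
    exact_mod_cast h
  obtain ⟨f, hf, hcard⟩ := Nat.sInf_mem hne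
  have hfin : (edgeSums G f).Finite := by
    have : edgeSums G f ⊆ Set.range (fun p : V × V => f p.1 + f p.2) := by
      rintro s ⟨u, v, -, h⟩
      exact ⟨(u, v), h⟩
    exact (Set.finite_range _).subset this
  set l := hfin.toFinset.toList with hl
  have hlen : l.length = sumIndex G := by
    rw [hl, Finset.length_toList, ← Set.ncard_eq_toFinset_card _ hfin]
    exact hcard
  obtain ⟨g', hg'⟩ := exclusive_of G (enc_inj G hf l) (by
    intro u v huv hmem
    obtain ⟨x, y, hxy, hsum⟩ := hmem
    obtain ⟨h1, h2⟩ := enc_sum G l hsum
    have hs : f x + f y ∈ l := by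
      rw [hl, Finset.mem_toList, Set.Finite.mem_toFinset]
      exact ⟨x, y, hxy, rfl⟩
    have h3 := h2 _ hs
    have hx : chi G f (f x + f y) x = 1 := by
      unfold chi
      rw [if_pos ⟨y, hxy, rfl⟩]
    have hy : chi G f (f x + f y) y = 1 := by
      unfold chi
      rw [if_pos ⟨x, hxy.symm, add_comm _ _⟩]
    rw [hx, hy] at h3
    have hu : chi G f (f x + f y) u = 1 := by
      rcases chi_cases G f (f x + f y) u with h4 | h4 <;>
      rcases chi_cases G f (f x + f y) v with h5 | h5 <;> omega
    unfold chi at hu
    have hc : ∃ w, G.Adj u w ∧ f u + f w = f x + f y := by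
      by_contra hc
      rw [if_neg hc] at hu
      exact absurd hu (by norm_num)
    obtain ⟨w, hw1, hw2⟩ := hc
    have : w = v := hf (by omega)
    rwa [this] at hw1)
  calc exclusiveSumNumber G ≤ (edgeSums G (enc G f l)).ncard := Nat.sInf_le ⟨g', hg'⟩
    _ ≤ (edgeSums G f).ncard * 3 ^ l.length := enc_card G l
    _ = sumIndex G * 3 ^ sumIndex G := by rw [hlen, hcard]; rfl

end Pool.Agent.Results.MP_091b59_co.ExclusiveBounded
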